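import Pool.Agent.Helper48.KM.Stmts

set_option autoImplicit false

namespace Pool.Agent.Helper48.KM

open LaurentPolynomial

noncomputable section

/-- first coordinate -/
def ei_Z (ρ δ : ℂ) : LaurentPolynomial ℂ := C (1 / (ρ * δ)) * T 1 - C (1 / δ) * T (-1)

/-- second coordinate -/
def ei_X (ρ δ ξ : ℂ) : LaurentPolynomial ℂ := C ξ * ei_Z ρ δ + C (1 / ρ) * T 1

/-- third coordinate -/
def ei_Y (ρ δ ξ L e1 e2 : ℂ) : LaurentPolynomial ℂ :=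
  C (L / 2) * (ei_Z ρ δ * (ei_X ρ δ ξ - C e1 * ei_Z ρ δ)) +
    C (1 / (2 * L)) * (ei_X ρ δ ξ ^ 2 + C e1 * ei_X ρ δ ξ * ei_Z ρ δ + C e2 * ei_Z ρ δ ^ 2)

theorem ei_evZ (ρ δ : ℂ) (s : ℂˣ) : LaurentPolynomial.eval₂ (RingHom.id ℂ) s (ei_Z ρ δ) =
    1 / (ρ * δ) * (s : ℂ) - 1 / δ * ((s : ℂ))⁻¹ := by
  simp [ei_Z]

theorem ei_evX (ρ δ ξ : ℂ) (s : ℂˣ) : LaurentPolynomial.eval₂ (RingHom.id ℂ) s (ei_X ρ δ ξ) =
    ξ * (1 / (ρ * δ) * (s : ℂ) - 1 / δ * ((s : ℂ))⁻¹) + 1 / ρ * (s : ℂ) := by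
  simp only [ei_X, map_add, map_mul, ei_evZ]
  simp

theorem ei_evY (ρ δ ξ L e1 e2 : ℂ) (s : ℂˣ) (z x : ℂ)
    (hz : z = LaurentPolynomial.eval₂ (RingHom.id ℂ) s (ei_Z ρ δ))
    (hx : x = LaurentPolynomial.eval₂ (RingHom.id ℂ) s (ei_X ρ δ ξ)) :
    LaurentPolynomial.eval₂ (RingHom.id ℂ) s (ei_Y ρ δ ξ L e1 e2) =
    L / 2 * (z * (x - e1 * z)) + 1 / (2 * L) * (x ^ 2 + e1 * x * z + e2 * z ^ 2) := by
  simp only [ei_Y, map_add, map_mul, map_sub, map_pow, ← hz, ← hx]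
  simp

theorem ei_curve (A C0 e1 e2 ξ : ℂ) (h1 : e1 ^ 3 + A * e1 + C0 = 0) (h2 : e2 = A + e1 ^ 2)
    (ha : ξ - e1 ≠ 0) (hb : ξ ^ 2 + e1 * ξ + e2 ≠ 0)
    (hc : -ξ ^ 2 + 2 * e1 * ξ + e2 + e1 ^ 2 ≠ 0) :
    ∃ f : Fin 3 → LaurentPolynomial ℂ, IsGm (surfEight A C0) f ∧ Lim 1 f ξ := by
  obtain ⟨L, hL⟩ : ∃ L : ℂ, L ^ 2 = (ξ ^ 2 + e1 * ξ + e2) / (ξ - e1) := by
    exact IsAlgClosed.exists_pow_nat_eq _ (by norm_num)
  have hL' : L ^ 2 * (ξ - e1) = ξ ^ 2 + e1 * ξ + e2 := by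
    rw [hL]; field_simp
  have hL0 : L ≠ 0 := by
    rintro rfl
    apply hb
    rw [← hL']
    ring
  obtain ⟨ρ, hρ⟩ : ∃ ρ : ℂ, ρ = -1 / (2 * L) := ⟨_, rfl⟩
  have hρ0 : ρ ≠ 0 := by
    rw [hρ]
    exact div_ne_zero (by norm_num) (mul_ne_zero two_ne_zero hL0)
  have hρL : 2 * L * ρ = -1 := by rw [hρ]; field_simp
  obtain ⟨δ, hδ⟩ : ∃ δ : ℂ, δ = L ^ 2 - e1 - 2 * ξ := ⟨_, rfl⟩
  have hδ0 : δ ≠ 0 := by
    intro h
    rw [hδ] at h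
    have h3 : L ^ 2 = e1 + 2 * ξ := by linear_combination h
    rw [h3] at hL'
    apply hc
    linear_combination -hL'
  refine ⟨![ei_Z ρ δ, ei_X ρ δ ξ, ei_Y ρ δ ξ L e1 e2], ⟨?_, ?_⟩, ?_⟩
  · intro s
    have hs : (s : ℂ) ≠ 0 := s.ne_zero
    obtain ⟨z, hz⟩ : ∃ z, z = LaurentPolynomial.eval₂ (RingHom.id ℂ) s (ei_Z ρ δ) := ⟨_, rfl⟩
    obtain ⟨x, hx⟩ : ∃ x, x = LaurentPolynomial.eval₂ (RingHom.id ℂ) s (ei_X ρ δ ξ) := ⟨_, rfl⟩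
    have hy := ei_evY ρ δ ξ L e1 e2 s z x hz hx
    have v0 : val ![ei_Z ρ δ, ei_X ρ δ ξ, ei_Y ρ δ ξ L e1 e2] s 0 = z := hz.symm
    have v1 : val ![ei_Z ρ δ, ei_X ρ δ ξ, ei_Y ρ δ ξ L e1 e2] s 1 = x := hx.symm
    have v2 : val ![ei_Z ρ δ, ei_X ρ δ ξ, ei_Y ρ δ ξ L e1 e2] s 2 =
      L / 2 * (z * (x - e1 * z)) + 1 / (2 * L) * (x ^ 2 + e1 * x * z + e2 * z ^ 2) := hy
    rw [ei_evZ] at hz
    rw [ei_evX, ← hz] at hx
    have e3 : x - ξ * z = (s : ℂ) / ρ := by rw [hx]; ring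
    have e4 : x - (ξ + δ) * z = 1 / (s : ℂ) := by
      rw [hx, hz]; field_simp; ring
    have e5 : ρ * (x - ξ * z) * (x - (ξ + δ) * z) = 1 := by
      rw [e3, e4]; field_simp
    simp only [surfEight, Set.mem_ofPred_eq, v0, v1, v2]
    refine ⟨?_, ?_⟩
    · have e6 : (L * (z * (x - e1 * z)) - 1 / L * (x ^ 2 + e1 * x * z + e2 * z ^ 2)) / 2 = 1 := by
        refine Eq.trans ?_ e5
        rw [hρ, hδ]
        field_simp
        linear_combination z ^ 2 * hL'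
      have e8 : C0 = -e1 * e2 := by rw [h2]; linear_combination h1
      have e9 : A = e2 - e1 ^ 2 := by rw [h2]; ring
      rw [e8, e9]
      have e10 : (L / 2 * (z * (x - e1 * z)) + 1 / (2 * L) * (x ^ 2 + e1 * x * z + e2 * z ^ 2)) ^ 2
          = ((L * (z * (x - e1 * z)) - 1 / L * (x ^ 2 + e1 * x * z + e2 * z ^ 2)) / 2) ^ 2 +
            (z * (x - e1 * z)) * (x ^ 2 + e1 * x * z + e2 * z ^ 2) := by
        field_simp
        ring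
      rw [e10, e6]
      ring
    · rintro ⟨h3, h4⟩
      rw [h3, h4] at e3
      have : (s : ℂ) / ρ ≠ 0 := div_ne_zero hs hρ0
      apply this
      rw [← e3]; ring
  · refine ⟨1, Units.mk0 2 two_ne_zero, ?_⟩
    intro h
    have h0 := congrFun h 0
    have h1 := congrFun h 1
    have v0 : ∀ s, val ![ei_Z ρ δ, ei_X ρ δ ξ, ei_Y ρ δ ξ L e1 e2] s 0 =
      1 / (ρ * δ) * (s : ℂ) - 1 / δ * ((s : ℂ))⁻¹ := fun s => ei_evZ ρ δ s
    have v1 : ∀ s, val ![ei_Z ρ δ, ei_X ρ δ ξ, ei_Y ρ δ ξ L e1 e2] s 1 =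
      ξ * (1 / (ρ * δ) * (s : ℂ) - 1 / δ * ((s : ℂ))⁻¹) + 1 / ρ * (s : ℂ) :=
        fun s => ei_evX ρ δ ξ s
    rw [v0, v0] at h0
    rw [v1, v1, h0] at h1
    have h5 : 1 / ρ * ((1 : ℂˣ) : ℂ) = 1 / ρ * ((Units.mk0 (2 : ℂ) two_ne_zero : ℂˣ) : ℂ) := by
      linear_combination h1
    rw [Units.val_one, Units.val_mk0] at h5
    have h6 : (1 : ℂ) / ρ = 0 := by linear_combination -h5
    exact one_div_ne_zero hρ0 h6
  · refine ⟨1, Polynomial.C (1 / (ρ * δ)) * Polynomial.X ^ 2 - Polynomial.C (1 / δ),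
      Polynomial.C ξ * (Polynomial.C (1 / (ρ * δ)) * Polynomial.X ^ 2 - Polynomial.C (1 / δ)) +
        Polynomial.C (1 / ρ) * Polynomial.X ^ 2, le_refl 1, ?_, ?_, ?_⟩
    · simp [hδ0]
    · simp
    · intro s
      have hs : (s : ℂ) ≠ 0 := s.ne_zero
      have v0 : val ![ei_Z ρ δ, ei_X ρ δ ξ, ei_Y ρ δ ξ L e1 e2] s 0 =
        1 / (ρ * δ) * (s : ℂ) - 1 / δ * ((s : ℂ))⁻¹ := ei_evZ ρ δ s
      have v1 : val ![ei_Z ρ δ, ei_X ρ δ ξ, ei_Y ρ δ ξ L e1 e2] s 1 =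
        ξ * (1 / (ρ * δ) * (s : ℂ) - 1 / δ * ((s : ℂ))⁻¹) + 1 / ρ * (s : ℂ) :=
          ei_evX ρ δ ξ s
      rw [v0, v1]
      simp only [Polynomial.eval_sub, Polynomial.eval_add, Polynomial.eval_mul, Polynomial.eval_C,
        Polynomial.eval_pow, Polynomial.eval_X]
      constructor
      · field_simp
      · rw [mul_one, pow_one]
        field_simp

theorem st_EI : ST_EI := by
  intro A C0 _ hcount
  obtain ⟨e1, he1⟩ : ∃ e1 : ℂ, e1 ^ 3 + A * e1 + C0 = 0 := by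
    have hdeg : (Polynomial.X ^ 3 + Polynomial.C A * Polynomial.X + Polynomial.C C0 :
        Polynomial ℂ).degree ≠ 0 := by
      have : (Polynomial.X ^ 3 + Polynomial.C A * Polynomial.X + Polynomial.C C0 :
        Polynomial ℂ).degree = 3 := by compute_degree!
      rw [this]; norm_num
    obtain ⟨e1, h⟩ := IsAlgClosed.exists_root _ hdeg
    refine ⟨e1, ?_⟩
    simpa [Polynomial.IsRoot] using h
  obtain ⟨e2, he2⟩ : ∃ e2 : ℂ, e2 = A + e1 ^ 2 := ⟨_, rfl⟩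
  have f1 : {ξ : ℂ | ξ - e1 = 0}.Finite := by
    have : {ξ : ℂ | ξ - e1 = 0} = {e1} := by
      ext ξ; simp [sub_eq_zero]
    rw [this]; exact Set.finite_singleton e1
  have quad : ∀ b c : ℂ, {ξ : ℂ | ξ ^ 2 + b * ξ + c = 0}.Finite := by
    intro b c
    have hne : (Polynomial.X ^ 2 + Polynomial.C b * Polynomial.X + Polynomial.C c :
        Polynomial ℂ) ≠ 0 := by
      intro h
      have h2 := congrArg (fun p => Polynomial.coeff p 2) h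
      simp at h2
    refine (Polynomial.finite_setOfPred_isRoot hne).subset ?_
    intro ξ hξ
    simpa [Polynomial.IsRoot] using hξ
  have hfin : ({ξ : ℂ | ξ - e1 = 0} ∪ {ξ : ℂ | ξ ^ 2 + e1 * ξ + e2 = 0} ∪
      {ξ : ℂ | ξ ^ 2 + (-2 * e1) * ξ + (-e2 - e1 ^ 2) = 0}).Finite :=
    (f1.union (quad _ _)).union (quad _ _)
  have huniv : (Set.univ : Set ℂ).Countable := by
    refine (hcount.union hfin.countable).mono ?_
    intro ξ _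
    by_cases h1 : ξ - e1 = 0
    · exact Or.inr (Or.inl (Or.inl h1))
    by_cases h2 : ξ ^ 2 + e1 * ξ + e2 = 0
    · exact Or.inr (Or.inl (Or.inr h2))
    by_cases h3 : -ξ ^ 2 + 2 * e1 * ξ + e2 + e1 ^ 2 = 0
    · refine Or.inr (Or.inr ?_)
      show ξ ^ 2 + (-2 * e1) * ξ + (-e2 - e1 ^ 2) = 0
      linear_combination -h3
    · exact Or.inl (ei_curve A C0 e1 e2 ξ he1 he2 h1 h2 h3)
  exact not_countable_complex huniv

end

end Pool.Agent.Helper48.KM
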